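import Pool.Agent.W5h90.QL.Main

/-!
# The quarter law for the sign conjecture
-/

universe u v

namespace Pool.Agent.W5h90.Old.QuarterLaw

open Pool.Agent.H914 Pool.Agent.H447 Pool.Agent.Y129 Pool.Agent.W5h90.QL

/-- **The quarter law.** Let `X` be a variety with nonzero cohomology and `σ` its sign class, the
difference of the even and the odd Kunneth projector.

(1) For every system `G` of spaces of classes on the powers of `X` which is stable under algebraic
correspondences and contains the classes of algebraic cycles and the sign class, the quotients of
the dimension of `G` and of the rank of the cycles modulo numerical equivalence converge to a number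
`N` in `{1, 2, ..., ∞}`, which bounds them for the even powers; and `N ≥ 4` unless the sign
conjecture holds for `X`.

(2) For the smallest such system, the number `N` lies in `{1, 4, 5, ..., ∞}`, and it is `1` if and
only if the sign conjecture holds for `X` and homological and numerical equivalence agree on all
powers of `X`. If `N` is finite, homological and numerical equivalence agree on all powers of `X`. -/
theorem result {k : Type u} [Field k] {𝒱 : VarClass k} {ops : CycleOps 𝒱}
    (W : WeilCohomology.{u, v} ops) (X : 𝒱.Obj) [Nontrivial (W.H X)] :
    ∃ σ, IsSignClass W X σ ∧
    (∀ G, IsSystem W X G → Contains W X G σ → Quarter W X G) ∧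
    IsSystem W X (signSystem W X σ) ∧ Contains W X (signSystem W X σ) σ ∧ SignIndex W X σ := by
  obtain ⟨σ, hσ, -⟩ := existsUnique_sign W X
  exact ⟨σ, hσ, fun G hG hσG => quarter_system hG hσ hσG,
    signSystem_stable σ, mem_signSystem σ, quarter_sign hσ⟩

end Pool.Agent.W5h90.Old.QuarterLaw
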